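import Mathlib

set_option autoImplicit false

namespace Pool.Agent.Results.MP_0e87b2_co.LinearRange

open Finset

/-- The restricted sum `A +_F B' = {a + b : a ∈ A, b ∈ B', (a, b) ∉ F}`. -/
def restrictedSum {p : ℕ} (A B' : Finset (ZMod p)) (F : Finset (ZMod p × ZMod p)) :
    Finset (ZMod p) :=
  ((A ×ˢ B').filter (fun x => x ∉ F)).image (fun x => x.1 + x.2)

/-- The bipartite graph `F ⊆ A × B` has maximum degree at most `d`. -/
def MaxDegLE {p : ℕ} (A B : Finset (ZMod p)) (F : Finset (ZMod p × ZMod p)) (d : ℕ) : Prop :=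
  (∀ a ∈ A, (B.filter (fun b => (a, b) ∈ F)).card ≤ d) ∧
    (∀ b ∈ B, (A.filter (fun a => (a, b) ∈ F)).card ≤ d)

section Proof

variable {p m u J r : ℕ}

theorem lift {x y : ℤ} (h : (x : ZMod p) = (y : ZMod p)) (h1 : x - y < p) (h2 : y - x < p) :
    x = y := by
  have hd := (ZMod.intCast_eq_intCast_iff_dvd_sub x y p).1 h
  have := Int.eq_zero_of_abs_lt_dvd hd (abs_lt.2 ⟨by linarith, h2⟩)
  linarith

theorem digits {M a b : ℤ} (h : M * a = b) (h1 : b < M) (h2 : -b < M) : a = 0 ∧ b = 0 := by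
  have hb : b = 0 := Int.eq_zero_of_abs_lt_dvd ⟨a, h.symm⟩ (abs_lt.2 ⟨by linarith, h1⟩)
  refine ⟨?_, hb⟩
  rw [hb] at h
  exact (mul_eq_zero.1 h).resolve_left (by omega)

/-- The rectangular hole. -/
def hole (p m u J : ℕ) : Finset (ZMod p) :=
  (range J ×ˢ range u).image (fun x : ℕ × ℕ => ((m * x.1 + x.2 : ℕ) : ZMod p))

theorem mem_hole {z : ZMod p} : z ∈ hole p m u J ↔
    ∃ j i : ℤ, 0 ≤ j ∧ j < J ∧ 0 ≤ i ∧ i < u ∧ z = ((m * j + i : ℤ) : ZMod p) := by
  constructor
  · intro h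
    obtain ⟨x, hx, rfl⟩ := mem_image.1 h
    obtain ⟨h1, h2⟩ := mem_product.1 hx
    exact ⟨x.1, x.2, by positivity, by exact_mod_cast mem_range.1 h1, by positivity,
      by exact_mod_cast mem_range.1 h2, by push_cast; rfl⟩
  · rintro ⟨j, i, h1, h2, h3, h4, rfl⟩
    lift j to ℕ using h1
    lift i to ℕ using h3
    exact mem_image.2 ⟨(j, i), mem_product.2 ⟨mem_range.2 (by exact_mod_cast h2),
      mem_range.2 (by exact_mod_cast h4)⟩, by push_cast; rfl⟩

theorem bound {j i : ℤ} (hu : u ≤ m) (h1 : 0 ≤ j) (h2 : j < J) (h3 : 0 ≤ i) (h4 : i < u) :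
    0 ≤ m * j + i ∧ m * j + i < m * J := by
  have hu' : (u : ℤ) ≤ m := by exact_mod_cast hu
  have hm : (0 : ℤ) ≤ m := by positivity
  constructor
  · positivity
  · nlinarith

theorem card_hole (hu : u ≤ m) (hp : m * J ≤ p) : (hole p m u J).card = J * u := by
  rw [hole, card_image_of_injOn, card_product, card_range, card_range]
  rintro ⟨j, i⟩ hx ⟨j', i'⟩ hy h
  obtain ⟨h1, h2⟩ := mem_product.1 (mem_coe.1 hx)
  obtain ⟨h3, h4⟩ := mem_product.1 (mem_coe.1 hy)
  have k1 : (j : ℤ) < J := by exact_mod_cast mem_range.1 h1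
  have k2 : (i : ℤ) < u := by exact_mod_cast mem_range.1 h2
  have k3 : (j' : ℤ) < J := by exact_mod_cast mem_range.1 h3
  have k4 : (i' : ℤ) < u := by exact_mod_cast mem_range.1 h4
  have b1 := bound hu (by positivity) k1 (by positivity) k2
  have b2 := bound hu (by positivity) k3 (by positivity) k4
  have hp' : (m : ℤ) * J ≤ p := by exact_mod_cast hp
  have hu' : (u : ℤ) ≤ m := by exact_mod_cast hu
  have e : ((m * j + i : ℤ) : ZMod p) = ((m * j' + i' : ℤ) : ZMod p) := by
    simpa using h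
  have e1 := lift e (by linarith) (by linarith)
  have e2 := digits (M := m) (a := (j : ℤ) - j') (b := (i' : ℤ) - i) (by linarith) (by omega)
    (by omega)
  ext <;> simp <;> omega

theorem hole_symm {z : ZMod p} (h : z ∈ hole p m u J) :
    ((m * (J - 1) + (u - 1) : ℤ) : ZMod p) - z ∈ hole p m u J := by
  obtain ⟨j, i, h1, h2, h3, h4, rfl⟩ := mem_hole.1 h
  exact mem_hole.2 ⟨J - 1 - j, u - 1 - i, by omega, by omega, by omega, by omega,
    by push_cast; ring⟩

theorem hole_conv (hu : u + 2 * r ≤ m) (hp : m * J + 2 * (r + m * r) ≤ p) {x : ZMod p} {a b : ℕ}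
    (ha : a ≤ r) (hb : b ≤ r) (h : x + ((a + m * b : ℕ) : ZMod p) ∈ hole p m u J)
    (h' : x - ((a + m * b : ℕ) : ZMod p) ∈ hole p m u J) : x ∈ hole p m u J := by
  obtain ⟨j, i, h1, h2, h3, h4, e⟩ := mem_hole.1 h
  obtain ⟨j', i', h1', h2', h3', h4', e'⟩ := mem_hole.1 h'
  have b1 := bound (m := m) (by omega) h1 h2 h3 h4
  have b2 := bound (m := m) (by omega) h1' h2' h3' h4'
  have hp' : (m : ℤ) * J + 2 * (r + m * r) ≤ p := by exact_mod_cast hp
  have hmb : (m : ℤ) * b ≤ m * r := by exact_mod_cast Nat.mul_le_mul_left m hb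
  have hmb0 : (0 : ℤ) ≤ m * b := by positivity
  have e1 : ((m * j + i : ℤ) : ZMod p) = ((m * j' + i' + 2 * (a + m * b) : ℤ) : ZMod p) := by
    push_cast at e e' ⊢
    linear_combination e' - e
  have e2 := lift e1 (by omega) (by omega)
  have e3 := digits (M := m) (a := j - j' - 2 * b) (b := 2 * a - (i - i')) (by linarith)
    (by omega) (by omega)
  refine mem_hole.2 ⟨j - b, i - a, by omega, by omega, by omega, by omega, ?_⟩
  push_cast at e ⊢
  linear_combination e

theorem hole_two (hu : u < m) (hp : m * J + m + 1 ≤ p) {x : ZMod p} {s t : ℤ}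
    (hs : s = 1 ∨ s = -1) (ht : t = 1 ∨ t = -1) (h : x + s ∈ hole p m u J)
    (h' : x + t * m ∈ hole p m u J) : x ∈ hole p m u J := by
  obtain ⟨j, i, h1, h2, h3, h4, e⟩ := mem_hole.1 h
  obtain ⟨j', i', h1', h2', h3', h4', e'⟩ := mem_hole.1 h'
  have b1 := bound (m := m) hu.le h1 h2 h3 h4
  have b2 := bound (m := m) hu.le h1' h2' h3' h4'
  have hp' : (m : ℤ) * J + m + 1 ≤ p := by exact_mod_cast hp
  have e1 : ((m * j + i : ℤ) : ZMod p) = ((m * j' + i' + s - t * m : ℤ) : ZMod p) := by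
    push_cast at e e' ⊢
    linear_combination e' - e
  have e2 := lift e1 (by rcases hs with rfl | rfl <;> rcases ht with rfl | rfl <;> omega)
    (by rcases hs with rfl | rfl <;> rcases ht with rfl | rfl <;> omega)
  have e3 := digits (M := m) (a := j - j' + t) (b := s - (i - i')) (by linarith)
    (by omega) (by omega)
  refine mem_hole.2 ⟨j, i', h1, h2, h3', h4', ?_⟩
  have e4 : i' = i - s := by omega
  rw [e4]
  push_cast at e ⊢
  linear_combination e

/-- The positive half of the box of differences. -/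
def box (m r : ℕ) : Finset ℕ :=
  ((range (r + 1) ×ˢ range (r + 1)).image fun x : ℕ × ℕ => x.1 + m * x.2).erase 0

theorem card_box (h : r < m) : (box m r).card + 1 = (r + 1) * (r + 1) := by
  rw [box, card_erase_add_one (mem_image.2 ⟨(0, 0), by simp, by simp⟩), card_image_of_injOn,
    card_product, card_range]
  rintro ⟨a, b⟩ hx ⟨a', b'⟩ hy e
  have h1 := mem_range.1 (mem_product.1 (mem_coe.1 hx)).1
  have h2 := mem_range.1 (mem_product.1 (mem_coe.1 hy)).1
  have e' : (a : ℤ) + m * b = a' + m * b' := by exact_mod_cast e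
  have e2 := digits (M := m) (a := (b : ℤ) - b') (b := (a' : ℤ) - a) (by linarith)
    (by simp at h1 h2; omega) (by simp at h1 h2; omega)
  ext <;> simp <;> omega

theorem mem_box {t : ℕ} (h : t ∈ box m r) :
    0 < t ∧ ∃ a b, a ≤ r ∧ b ≤ r ∧ t = a + m * b := by
  obtain ⟨h0, h1⟩ := mem_erase.1 h
  obtain ⟨x, hx, rfl⟩ := mem_image.1 h1
  obtain ⟨h2, h3⟩ := mem_product.1 hx
  exact ⟨Nat.pos_of_ne_zero h0, x.1, x.2, Nat.lt_succ_iff.1 (mem_range.1 h2),
    Nat.lt_succ_iff.1 (mem_range.1 h3), rfl⟩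

theorem many [NeZero p] (hr : 0 < r) (hu : u + 2 * r ≤ m) (hp : m * J + m * (2 * r + 2) ≤ p)
    {T : Finset ℕ} (hT : T ⊆ box m r) (h1 : 1 ∈ T) (hm : m ∈ T) {x : ZMod p}
    (hx : x ∉ hole p m u J) (c : ZMod p) (hc : c = ((m * (J - 1) + (u - 1) : ℤ) : ZMod p)) :
    T.card + 1 ≤ ((hole p m u J)ᶜ.filter fun y => x + y ∈
      T.image (fun t : ℕ => c - t) ∪ T.image (fun t : ℕ => c + t)).card := by
  have hp1 : m * J + 2 * (r + m * r) < p := by nlinarith
  have hb : ∀ t ∈ T, 0 < t ∧ 2 * t < p := by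
    intro t ht
    obtain ⟨h0, a, b, ha, hb, rfl⟩ := mem_box (hT ht)
    have := Nat.mul_le_mul_left m hb
    omega
  have hsym : ∀ z, z ∉ hole p m u J → c - z ∈ (hole p m u J)ᶜ := by
    intro z hz
    refine mem_compl.2 fun h => hz ?_
    have := hole_symm h
    rwa [← hc, sub_sub_cancel] at this
  set T1 := T.filter fun t : ℕ => x + t ∉ hole p m u J with hT1
  set T2 := T.filter fun t : ℕ => x - t ∉ hole p m u J with hT2
  have hinj : ∀ t ∈ T, ∀ t' ∈ T, (t : ZMod p) = t' → t = t' := by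
    intro t ht t' ht' e
    have := lift (p := p) (x := t) (y := t') (by simpa using e) (by have := hb t ht; omega)
      (by have := hb t' ht'; omega)
    omega
  have c1 : (T1.image fun t : ℕ => c - (x + t)).card = T1.card :=
    card_image_of_injOn fun t ht t' ht' e =>
      hinj t (mem_filter.1 ht).1 t' (mem_filter.1 ht').1 (by linear_combination -e)
  have c2 : (T2.image fun t : ℕ => c - (x - t)).card = T2.card :=
    card_image_of_injOn fun t ht t' ht' e =>
      hinj t (mem_filter.1 ht).1 t' (mem_filter.1 ht').1 (by linear_combination e)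
  have hdis : Disjoint (T1.image fun t : ℕ => c - (x + t)) (T2.image fun t : ℕ => c - (x - t)) := by
    rw [disjoint_left]
    intro y hy hy'
    obtain ⟨t, ht, rfl⟩ := mem_image.1 hy
    obtain ⟨t', ht', e⟩ := mem_image.1 hy'
    have k1 := hb t (mem_filter.1 ht).1
    have k2 := hb t' (mem_filter.1 ht').1
    have := lift (p := p) (x := t + t') (y := 0) (by push_cast; linear_combination e) (by omega)
      (by omega)
    omega
  have hun : T ⊆ T1 ∪ T2 := by
    intro t ht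
    by_contra hcon
    rw [mem_union, not_or, mem_filter, mem_filter, not_and, not_and, not_not, not_not] at hcon
    obtain ⟨-, a, b, ha, hb, rfl⟩ := mem_box (hT ht)
    exact hx (hole_conv hu hp1.le ha hb (hcon.1 ht) (hcon.2 ht))
  have hin : (T1 ∩ T2).Nonempty := by
    by_contra hcon
    rw [not_nonempty_iff_eq_empty, eq_empty_iff_forall_notMem] at hcon
    have key : ∀ t ∈ T, ∃ s : ℤ, (s = 1 ∨ s = -1) ∧ x + s * t ∈ hole p m u J := by
      intro t ht
      have := hcon t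
      rw [mem_inter, mem_filter, mem_filter] at this
      by_cases k : x + t ∈ hole p m u J
      · exact ⟨1, Or.inl rfl, by simpa using k⟩
      · refine ⟨-1, Or.inr rfl, ?_⟩
        by_contra k'
        exact this ⟨⟨ht, k⟩, ht, by simpa [sub_eq_add_neg] using k'⟩
    obtain ⟨s, hs, k1⟩ := key 1 h1
    obtain ⟨t, ht, k2⟩ := key m hm
    exact hx (hole_two (by omega) (by nlinarith) hs ht (by simpa using k1) k2)
  have hsub : (T1.image fun t : ℕ => c - (x + t)) ∪ (T2.image fun t : ℕ => c - (x - t)) ⊆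
      (hole p m u J)ᶜ.filter fun y => x + y ∈
        T.image (fun t : ℕ => c - t) ∪ T.image (fun t : ℕ => c + t) := by
    intro y hy
    rcases mem_union.1 hy with hy | hy <;> obtain ⟨t, ht, rfl⟩ := mem_image.1 hy <;>
      obtain ⟨k1, k2⟩ := mem_filter.1 ht
    · exact mem_filter.2 ⟨hsym _ k2, mem_union_left _ (mem_image.2 ⟨t, k1, by ring⟩)⟩
    · exact mem_filter.2 ⟨hsym _ k2, mem_union_right _ (mem_image.2 ⟨t, k1, by ring⟩)⟩
  have k1 := card_le_card hsub
  rw [card_union_of_disjoint hdis, c1, c2] at k1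
  have k2 := card_union_add_card_inter T1 T2
  have k3 := card_le_card hun
  have k4 := hin.card_pos
  omega

end Proof

/-- For every `β < 1` there is `γ > 0` such that there are arbitrarily large `A` in `ZMod p` with
`|A| = n < (1 - β) p / 2` and, for every `d` with `(1 - γ) n ≤ d ≤ n - 3`, some `F ⊆ A × A` of
maximum degree at most `d` with `|A +_F B'| < 2 n - 2 d - 1` for every `B' ⊆ A`. -/
theorem result (β : ℝ) (hβ : β < 1) : ∃ γ : ℝ, 0 < γ ∧ ∀ n₀ : ℕ,
    ∃ (p : ℕ) (_ : p.Prime) (A B : Finset (ZMod p)) (n : ℕ),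
      B = A ∧ n₀ ≤ n ∧ A.card = n ∧ B.card = n ∧ (n : ℝ) < (1 - β) * p / 2 ∧
        ∀ d : ℕ, (1 - γ) * n ≤ d → d + 3 ≤ n →
          ∃ F : Finset (ZMod p × ZMod p), F ⊆ A ×ˢ B ∧ MaxDegLE A B F d ∧
            ∀ B' : Finset (ZMod p), B' ⊆ B →
              ((restrictedSum A B' F).card : ℤ) < 2 * (n : ℤ) - 2 * (d : ℤ) - 1 := by
  have hε : 0 < 1 - β := by linarith
  obtain ⟨L₀, hL₀⟩ := exists_nat_gt (14 / (1 - β))
  obtain ⟨L, hL4, hLε⟩ : ∃ L : ℕ, 4 ≤ L ∧ 14 < (L : ℝ) * (1 - β) := by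
    refine ⟨L₀ + 4, by omega, ?_⟩
    rw [div_lt_iff₀ hε] at hL₀
    push_cast
    nlinarith
  have hL0 : (0 : ℝ) < L := by exact_mod_cast (show 0 < L by omega)
  refine ⟨1 / (14 * L), by positivity, fun n₀ => ?_⟩
  obtain ⟨r, hr0, hrn⟩ : ∃ r : ℕ, 0 < r ∧ n₀ ≤ r := ⟨n₀ + 1, by omega, by omega⟩
  obtain ⟨m, hm⟩ : ∃ m : ℕ, m = L * r := ⟨_, rfl⟩
  have hm4 : 4 * r ≤ m := hm ▸ Nat.mul_le_mul_right r hL4
  obtain ⟨p, hprime, hp1, hp2⟩ := Nat.exists_prime_lt_and_le_two_mul (m * m)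
    (Nat.mul_ne_zero (by omega) (by omega))
  have : NeZero p := ⟨hprime.ne_zero⟩
  have hq : m ≤ p / m := (Nat.le_div_iff_mul_le (by omega)).2 hp1.le
  obtain ⟨J, hJ⟩ : ∃ J : ℕ, p / m = J + (2 * r + 2) := ⟨p / m - (2 * r + 2), by omega⟩
  obtain ⟨u, hu⟩ : ∃ u : ℕ, m = u + 2 * r := ⟨m - 2 * r, by omega⟩
  have hdm := Nat.div_add_mod p m
  have hmod := Nat.mod_lt p (show 0 < m by omega)
  rw [hJ, mul_add] at hdm
  have hp : m * J + m * (2 * r + 2) ≤ p := by omega
  set A := (hole p m u J)ᶜ with hA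
  have hcard : A.card + J * u = p := by
    rw [hA, ← card_hole (p := p) (m := m) (by omega) (by omega), card_compl_add_card, ZMod.card]
  have hJu : J * u + 2 * r * J = m * J := by rw [hu]; ring
  have hlo : m ≤ A.card := by nlinarith
  have hup : L * A.card ≤ 7 * p := by
    have h1 : A.card ≤ m * (2 * r + 3) + 2 * r * J := by nlinarith
    calc L * A.card ≤ L * (m * (2 * r + 3) + 2 * r * J) := Nat.mul_le_mul_left _ h1
      _ = m * (L * (2 * r + 3)) + 2 * (L * r * J) := by ring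
      _ ≤ m * (L * (5 * r)) + 2 * (L * r * J) := by gcongr; omega
      _ = 5 * (m * (L * r)) + 2 * (L * r * J) := by ring
      _ ≤ 7 * p := by rw [← hm]; omega
  refine ⟨p, hprime, A, A, A.card, rfl, by omega, rfl, rfl, ?_, fun d hd1 hd2 => ?_⟩
  · have h1 : (L : ℝ) * A.card ≤ 7 * p := by exact_mod_cast hup
    have hp0 : (0 : ℝ) < p := by exact_mod_cast hprime.pos
    have : (A.card : ℝ) * L < (1 - β) * p / 2 * L := by nlinarith
    exact lt_of_mul_lt_mul_right this hL0.le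
  obtain ⟨k, hk⟩ : ∃ k : ℕ, A.card = d + (k + 1) := ⟨A.card - d - 1, by omega⟩
  have hkr : k + 1 ≤ r * r := by
    have h1 : L * A.card ≤ L * (14 * L * (r * r)) := by
      calc L * A.card ≤ 7 * (2 * (m * m)) := by omega
        _ = L * (14 * L * (r * r)) := by rw [hm]; ring
    have h2 : (A.card : ℝ) ≤ 14 * L * (r * r) := by
      exact_mod_cast Nat.le_of_mul_le_mul_left h1 (by omega)
    have h3 : (A.card : ℝ) = d + (k + 1) := by exact_mod_cast hk
    have h4 : ((k : ℝ) + 1) ≤ 1 / (14 * L) * A.card := by linarith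
    have h5 : 1 / (14 * (L : ℝ)) * A.card ≤ r * r := by
      rw [one_div, inv_mul_le_iff₀ (by positivity)]
      exact h2
    exact_mod_cast h4.trans h5
  have hb1 : ({1, m} : Finset ℕ) ⊆ box m r := by
    intro t ht
    refine mem_erase.2 ?_
    rcases mem_insert.1 ht with rfl | ht
    · exact ⟨one_ne_zero, mem_image.2 ⟨(1, 0), by simp; omega, by simp⟩⟩
    · rw [mem_singleton.1 ht]
      exact ⟨by omega, mem_image.2 ⟨(0, 1), by simp; omega, by simp⟩⟩
  obtain ⟨T, hT1, hT2, hT⟩ := exists_subsuperset_card_eq (n := k) hb1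
    (card_le_two.trans (by omega)) (by have := card_box (m := m) (r := r) (by omega); nlinarith)
  set c : ZMod p := ((m * (J - 1) + (u - 1) : ℤ) : ZMod p) with hc
  set S := T.image (fun t : ℕ => c - t) ∪ T.image (fun t : ℕ => c + t) with hS
  have hdeg : ∀ a ∈ A, (A.filter (fun b => a + b ∉ S)).card ≤ d := by
    intro a ha
    have h3 := many hr0 hu.ge hp hT2 (hT1 (by simp)) (hT1 (by simp)) (mem_compl.1 ha) c hc
    have h4 := card_filter_add_card_filter_not (s := A) (fun b => a + b ∈ S)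
    rw [← hA, ← hS] at h3
    omega
  refine ⟨(A ×ˢ A).filter (fun x => x.1 + x.2 ∉ S), filter_subset _ _, ⟨?_, ?_⟩, ?_⟩
  · intro a ha
    refine le_trans (card_le_card ?_) (hdeg a ha)
    intro b hb
    obtain ⟨hb1, hb2⟩ := mem_filter.mp hb
    exact mem_filter.mpr ⟨hb1, (mem_filter.mp hb2).2⟩
  · intro b hb
    refine le_trans (card_le_card ?_) (hdeg b hb)
    intro a ha
    obtain ⟨ha1, ha2⟩ := mem_filter.mp ha
    refine mem_filter.mpr ⟨ha1, ?_⟩
    rw [add_comm]
    exact (mem_filter.mp ha2).2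
  · intro B' hB'
    have hsub : restrictedSum A B' ((A ×ˢ A).filter (fun x => x.1 + x.2 ∉ S)) ⊆ S := by
      intro s hs
      obtain ⟨x, hx, rfl⟩ := mem_image.mp hs
      obtain ⟨hx1, hx2⟩ := mem_filter.mp hx
      by_contra hcon
      refine hx2 (mem_filter.mpr ⟨?_, hcon⟩)
      obtain ⟨k1, k2⟩ := mem_product.mp hx1
      exact mem_product.mpr ⟨k1, hB' k2⟩
    have h4 : S.card ≤ T.card + T.card :=
      (card_union_le _ _).trans (add_le_add card_image_le card_image_le)
    have h5 := card_le_card hsub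
    omega

end Pool.Agent.Results.MP_0e87b2_co.LinearRange
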