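import Mathlib

set_option autoImplicit false

namespace Pool.Agent.Results.MP_0e87b2_co.SmallDegree

open Finset

/-- The restricted sum `A +_F B' = {a + b : a ∈ A, b ∈ B', (a, b) ∉ F}`. -/
def restrictedSum {p : ℕ} (A B' : Finset (ZMod p)) (F : Finset (ZMod p × ZMod p)) :
    Finset (ZMod p) :=
  ((A ×ˢ B').filter (fun x => x ∉ F)).image (fun x => x.1 + x.2)

/-- The bipartite graph `F ⊆ A × B` has maximum degree at most `d`. -/
def MaxDegLE {p : ℕ} (A B : Finset (ZMod p)) (F : Finset (ZMod p × ZMod p)) (d : ℕ) : Prop :=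
  (∀ a ∈ A, (B.filter (fun b => (a, b) ∈ F)).card ≤ d) ∧
    (∀ b ∈ B, (A.filter (fun a => (a, b) ∈ F)).card ≤ d)

section Proof

/-- The set `A` before reduction: an interval of length `n + g` with a gap of length `g`. -/
def setA (n d g : ℕ) : Finset ℕ := range d ∪ Ico (d + g) (n + g)

/-- The common sums. -/
def setC (n d g : ℕ) : Finset ℕ :=
  Ico (d + g) (n - 1 + min d (n - d)) ∪ Ico (n - 1 + d + g) (n - 1 + (n - d) + g)

/-- The allowed pairs. -/
def ok (n d t g a b : ℕ) : Prop :=
  a + b ∈ setC n d g ∨ (a < g ∧ b / g = a / t) ∨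
    (n ≤ a ∧ (n - 1 - b) / g = (n + g - 1 - a) / t)

instance (n d t g a b : ℕ) : Decidable (ok n d t g a b) := by
  unfold ok; infer_instance

theorem mem_setA {n d g a : ℕ} : a ∈ setA n d g ↔ a < d ∨ (d + g ≤ a ∧ a < n + g) := by
  simp [setA]

theorem mem_setC {n d g s : ℕ} : s ∈ setC n d g ↔
    (d + g ≤ s ∧ s < n - 1 + min d (n - d)) ∨
      (n - 1 + d + g ≤ s ∧ s < n - 1 + (n - d) + g) := by
  simp only [setC, mem_union, mem_Ico]

theorem card_setA {n d g : ℕ} (h : d ≤ n) : (setA n d g).card = n := by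
  rw [setA, card_union_of_disjoint]
  · rw [card_range, Nat.card_Ico]; omega
  · rw [disjoint_left]
    intro x hx hy
    rw [mem_range] at hx
    rw [mem_Ico] at hy
    omega

theorem card_setC {n d g : ℕ} (h1 : 2 * g < d) (h2 : d + 2 * g < n) :
    (setC n d g).card + g + 1 ≤ 2 * (n - d) := by
  have := card_union_le (Ico (d + g) (n - 1 + min d (n - d)))
    (Ico (n - 1 + d + g) (n - 1 + (n - d) + g))
  rw [Nat.card_Ico, Nat.card_Ico] at this
  unfold setC
  omega

theorem block {t m a : ℕ} (h : a < t * m) :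
    t * m * (a / t) + t * m ≤ t * m * m := by
  have ht : 0 < t := Nat.pos_of_ne_zero (by rintro rfl; simp at h)
  have : a / t + 1 ≤ m := (Nat.div_lt_iff_lt_mul ht).2 (by rwa [mul_comm] at h)
  calc t * m * (a / t) + t * m = t * m * (a / t + 1) := by ring
    _ ≤ t * m * m := Nat.mul_le_mul_left _ this

theorem div_eq {g q x : ℕ} (h1 : g * q ≤ x) (h2 : x < g * q + g) : x / g = q :=
  Nat.div_eq_of_lt_le (by rwa [mul_comm] at h1) (by rw [add_mul, one_mul, mul_comm q]; exact h2)

theorem card3 {s s1 s2 s3 : Finset ℕ} (h : s ⊆ s1 ∪ s2 ∪ s3) :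
    s.card ≤ s1.card + s2.card + s3.card :=
  (card_le_card h).trans ((card_union_le _ _).trans
    (Nat.add_le_add_right (card_union_le _ _) _))

theorem degA {n d t m a : ℕ} (h0 : t * m * m ≤ d) (h1 : 2 * (t * m) < d)
    (h2 : d + 2 * (t * m) < n) (ha : a ∈ setA n d (t * m)) :
    ((range n).filter (fun b => ¬ ok n d t (t * m) a b)).card ≤ d := by
  rw [mem_setA] at ha
  by_cases c1 : a < t * m
  · have hb := block c1
    generalize hq : a / t = q at hb
    generalize hg : t * m = g at *
    have hd : ∀ x, g * q ≤ x → x < g * q + g → x / g = q := fun x => div_eq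
    generalize g * q = u at *
    have hs : (range n).filter (fun b => ¬ ok n d t g a b) ⊆
        range u ∪ Ico (u + g) (d + g) ∪ ∅ := by
      intro b hb'
      rw [mem_filter, mem_range, ok, mem_setC, hq] at hb'
      have := hd b
      simp only [mem_union, mem_range, mem_Ico, notMem_empty, or_false]
      omega
    have := card3 hs
    rw [card_range, Nat.card_Ico, card_empty] at this
    omega
  by_cases c2 : n ≤ a
  · have hb := block (t := t) (m := m) (a := n + t * m - 1 - a) (by omega)
    generalize hq : (n + t * m - 1 - a) / t = q at hb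
    generalize hg : t * m = g at *
    have hd : ∀ x, g * q ≤ x → x < g * q + g → x / g = q := fun x => div_eq
    generalize g * q = u at *
    rcases le_total d (n - d) with c3 | c3
    · have hs : (range n).filter (fun b => ¬ ok n d t g a b) ⊆
          Ico (n - 1 + d - a) (n - 1 + d + g - a) ∪ Ico (n - d) (n - u - g) ∪ Ico (n - u) n := by
        intro b hb'
        rw [mem_filter, mem_range, ok, mem_setC, hq] at hb'
        have := hd (n - 1 - b)
        simp only [mem_union, mem_Ico]
        omega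
      have := card3 hs
      rw [Nat.card_Ico, Nat.card_Ico, Nat.card_Ico] at this
      omega
    · have hs : (range n).filter (fun b => ¬ ok n d t g a b) ⊆
          Ico (n - d - g) (n - u - g) ∪ Ico (n - u) n ∪ ∅ := by
        intro b hb'
        rw [mem_filter, mem_range, ok, mem_setC, hq] at hb'
        have := hd (n - 1 - b)
        simp only [mem_union, mem_Ico, notMem_empty, or_false]
        omega
      have := card3 hs
      rw [Nat.card_Ico, Nat.card_Ico, card_empty] at this
      omega
  generalize t * m = g at *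
  have hno : ∀ b, ¬ ok n d t g a b → a + b ∉ setC n d g := fun b h h' => h (Or.inl h')
  by_cases c4 : a < d
  · have hs : (range n).filter (fun b => ¬ ok n d t g a b) ⊆
        range (d + g - a) ∪ Ico (n - 1 + (n - d) - a) n ∪ ∅ := by
      intro b hb'
      rw [mem_filter, mem_range] at hb'
      have := hno b hb'.2
      rw [mem_setC] at this
      simp only [mem_union, mem_range, mem_Ico, notMem_empty, or_false]
      omega
    have := card3 hs
    rw [card_range, Nat.card_Ico, card_empty] at this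
    omega
  rcases le_total d (n - d) with c3 | c3
  · have hs : (range n).filter (fun b => ¬ ok n d t g a b) ⊆
        Ico (n - 1 + d - a) (n - 1 + d + g - a) ∪ Ico (n - 1 + (n - d) + g - a) n ∪ ∅ := by
      intro b hb'
      rw [mem_filter, mem_range] at hb'
      have := hno b hb'.2
      rw [mem_setC] at this
      simp only [mem_union, mem_Ico, notMem_empty, or_false]
      omega
    have := card3 hs
    rw [Nat.card_Ico, Nat.card_Ico, card_empty] at this
    omega
  · have hs : (range n).filter (fun b => ¬ ok n d t g a b) ⊆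
        Ico (n - 1 + (n - d) - a) n ∪ ∅ ∪ ∅ := by
      intro b hb'
      rw [mem_filter, mem_range] at hb'
      have := hno b hb'.2
      rw [mem_setC] at this
      simp only [mem_union, mem_Ico, notMem_empty, or_false]
      omega
    have := card3 hs
    rw [Nat.card_Ico, card_empty] at this
    omega

theorem degB {n d t g b : ℕ} (h1 : 2 * g < d) (h2 : d + 2 * g < n) (hb : b < n) :
    ((setA n d g).filter (fun a => ¬ ok n d t g a b)).card ≤ d := by
  have hno : ∀ a, ¬ ok n d t g a b → a + b ∉ setC n d g := fun a h h' => h (Or.inl h')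
  rcases le_total d (n - d) with c3 | c3
  · have hs : (setA n d g).filter (fun a => ¬ ok n d t g a b) ⊆
        range (min d (d + g - b)) ∪
          Ico (max (d + g) (n - 1 + d - b)) (min (n + g) (n - 1 + d + g - b)) ∪
          Ico (max (d + g) (n - 1 + (n - d) + g - b)) (n + g) := by
      intro a ha
      rw [mem_filter, mem_setA] at ha
      have := hno a ha.2
      rw [mem_setC] at this
      simp only [mem_union, mem_range, mem_Ico]
      omega
    have := card3 hs
    rw [card_range, Nat.card_Ico, Nat.card_Ico] at this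
    omega
  · have hs : (setA n d g).filter (fun a => ¬ ok n d t g a b) ⊆
        range (min d (d + g - b)) ∪ Ico (n - 1 + (n - d) - b) d ∪
          Ico (max (d + g) (n - 1 + (n - d) - b)) (n + g) := by
      intro a ha
      rw [mem_filter, mem_setA] at ha
      have := hno a ha.2
      rw [mem_setC] at this
      simp only [mem_union, mem_range, mem_Ico]
      omega
    have := card3 hs
    rw [card_range, Nat.card_Ico, Nat.card_Ico] at this
    omega

/-- The extra partners of `b`. -/
def extra (n t m b : ℕ) : Finset ℕ :=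
  if b < t * m * m then Ico (t * (b / (t * m))) (t * (b / (t * m)) + t)
  else (Ico (t * ((n - 1 - b) / (t * m))) (t * ((n - 1 - b) / (t * m)) + t)).image
    (fun x => n + t * m - 1 - x)

theorem card_extra (n t m b : ℕ) : (extra n t m b).card ≤ t := by
  unfold extra
  split_ifs
  · rw [Nat.card_Ico]; omega
  · refine card_image_le.trans ?_
    rw [Nat.card_Ico]; omega

theorem small {t m a x : ℕ} (h : a < t * m) (hx : x / (t * m) = a / t) :
    x < t * m * m ∧ a ∈ Ico (t * (x / (t * m))) (t * (x / (t * m)) + t) := by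
  have ht : 0 < t := Nat.pos_of_ne_zero (by rintro rfl; simp at h)
  have hg : 0 < t * m := by omega
  constructor
  · have h1 := block h
    have h2 := Nat.lt_mul_div_succ x hg
    rw [hx, mul_add, mul_one] at h2
    omega
  · rw [hx, mem_Ico]
    have h2 := Nat.lt_mul_div_succ a ht
    rw [mul_add, mul_one] at h2
    exact ⟨Nat.mul_div_le a t, h2⟩

theorem ok_cases {n d t m a b : ℕ} (h3 : 2 * (t * m * m) ≤ n) (ha : a < n + t * m) (hb : b < n)
    (h : ok n d t (t * m) a b) : a + b ∈ setC n d (t * m) ∨ a ∈ extra n t m b := by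
  rcases h with h | ⟨h, h'⟩ | ⟨h, h'⟩
  · exact Or.inl h
  · right
    obtain ⟨k1, k2⟩ := small h h'
    rw [extra, if_pos k1]
    exact k2
  · right
    obtain ⟨k1, k2⟩ := small (a := n + t * m - 1 - a) (by omega) h'
    rw [extra, if_neg (by omega)]
    exact mem_image.2 ⟨_, k2, by omega⟩

/-- Transfer of an integer configuration to `ZMod p`. -/
theorem transfer (p n d g t : ℕ) (hp : p = 0 ∨ n + g ≤ p) (A0 C : Finset ℕ) (E : ℕ → Finset ℕ)
    (R : ℕ → ℕ → Prop) [∀ a b, Decidable (R a b)]
    (hA : ∀ a ∈ A0, a < n + g) (hcard : A0.card = n)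
    (dA : ∀ a ∈ A0, ((range n).filter (fun b => ¬ R a b)).card ≤ d)
    (dB : ∀ b < n, (A0.filter (fun a => ¬ R a b)).card ≤ d)
    (hC : C.card + g + 1 ≤ 2 * (n - d)) (hE : ∀ b, (E b).card ≤ t)
    (hR : ∀ a ∈ A0, ∀ b < n, R a b → a + b ∈ C ∨ a + b ∈ E b) :
    ∃ (A B : Finset (ZMod p)) (F : Finset (ZMod p × ZMod p)),
      A.card = n ∧ B.card = n ∧ F ⊆ A ×ˢ B ∧ MaxDegLE A B F d ∧
        ∀ B' ⊆ B, (restrictedSum A B' F).card + g + 1 ≤ 2 * (n - d) + t * B'.card := by
  have hval : ∀ x : ℕ, x < n + g → ((x : ZMod p)).val = x := by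
    intro x hx
    rw [ZMod.val_natCast]
    rcases hp with rfl | hp
    · exact Nat.mod_zero x
    · exact Nat.mod_eq_of_lt (by omega)
  have hB : ∀ b ∈ range n, b < n + g := by
    intro b hb
    rw [mem_range] at hb
    omega
  have hinj : ∀ s : Finset ℕ, (∀ x ∈ s, x < n + g) →
      (s.image (fun x : ℕ => (x : ZMod p))).card = s.card := by
    intro s hs
    refine card_image_of_injOn ?_
    intro x hx y hy hxy
    have := congrArg ZMod.val hxy
    rwa [hval x (hs x hx), hval y (hs y hy)] at this
  refine ⟨A0.image (fun x : ℕ => (x : ZMod p)),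
    (range n).image (fun x : ℕ => (x : ZMod p)),
    ((A0.image (fun x : ℕ => (x : ZMod p))) ×ˢ
      ((range n).image (fun x : ℕ => (x : ZMod p)))).filter
        (fun x => ¬ R x.1.val x.2.val), ?_, ?_, filter_subset _ _, ⟨?_, ?_⟩, ?_⟩
  · rw [hinj _ hA, hcard]
  · rw [hinj _ hB, card_range]
  · intro a ha
    obtain ⟨a, ha0, rfl⟩ := mem_image.1 ha
    refine le_trans (card_le_card ?_) ((card_image_le (f := fun x : ℕ => (x : ZMod p))).trans
      (dA a ha0))
    intro b hb
    obtain ⟨hb1, hb2⟩ := mem_filter.1 hb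
    obtain ⟨b, hb0, rfl⟩ := mem_image.1 hb1
    have := (mem_filter.1 hb2).2
    rw [hval a (hA a ha0), hval b (hB b hb0)] at this
    exact mem_image.2 ⟨b, mem_filter.2 ⟨hb0, this⟩, rfl⟩
  · intro b hb
    obtain ⟨b, hb0, rfl⟩ := mem_image.1 hb
    refine le_trans (card_le_card ?_) ((card_image_le (f := fun x : ℕ => (x : ZMod p))).trans
      (dB b (mem_range.1 hb0)))
    intro a ha
    obtain ⟨ha1, ha2⟩ := mem_filter.1 ha
    obtain ⟨a, ha0, rfl⟩ := mem_image.1 ha1
    have := (mem_filter.1 ha2).2
    rw [hval a (hA a ha0), hval b (hB b hb0)] at this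
    exact mem_image.2 ⟨a, mem_filter.2 ⟨ha0, this⟩, rfl⟩
  · intro B' hB'
    have hE' : (B'.biUnion (fun b => (E b.val).image
        (fun x : ℕ => (x : ZMod p)))).card ≤ t * B'.card := by
      rw [mul_comm]
      exact card_biUnion_le_card_mul _ _ _ (fun b _ => card_image_le.trans (hE _))
    have hC' : (C.image (fun x : ℕ => (x : ZMod p))).card ≤ C.card := card_image_le
    have hsub : restrictedSum (A0.image (fun x : ℕ => (x : ZMod p))) B'
        (((A0.image (fun x : ℕ => (x : ZMod p))) ×ˢ
          ((range n).image (fun x : ℕ => (x : ZMod p)))).filter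
            (fun x => ¬ R x.1.val x.2.val)) ⊆
        C.image (fun x : ℕ => (x : ZMod p)) ∪
          B'.biUnion (fun b => (E b.val).image (fun x : ℕ => (x : ZMod p))) := by
      intro z hz
      obtain ⟨⟨a, b⟩, hab, rfl⟩ := mem_image.1 hz
      obtain ⟨hab1, hab2⟩ := mem_filter.1 hab
      obtain ⟨ha, hb⟩ := mem_product.1 hab1
      have hb1 := hB' hb
      have hok : R a.val b.val := by
        by_contra hc
        exact hab2 (mem_filter.2 ⟨mem_product.2 ⟨ha, hb1⟩, hc⟩)
      obtain ⟨a, ha0, rfl⟩ := mem_image.1 ha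
      obtain ⟨b, hb0, rfl⟩ := mem_image.1 hb1
      rw [hval a (hA a ha0), hval b (hB b hb0)] at hok
      rcases hR a ha0 b (mem_range.1 hb0) hok with h | h
      · exact mem_union_left _ (mem_image.2 ⟨a + b, h, by push_cast; rfl⟩)
      · refine mem_union_right _ (mem_biUnion.2 ⟨_, hb, mem_image.2 ⟨a + b, ?_, ?_⟩⟩)
        · rw [hval b (hB b hb0)]
          exact h
        · push_cast; rfl
    have := (card_le_card hsub).trans (card_union_le _ _)
    omega

/-- First construction: large `d`. -/
theorem main (p n d t m : ℕ) (hp : p = 0 ∨ n + t * m ≤ p) (h0 : t * m * m ≤ d)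
    (h1 : 2 * (t * m) < d) (h2 : d + 2 * (t * m) < n) (h3 : 2 * (t * m * m) ≤ n) :
    ∃ (A B : Finset (ZMod p)) (F : Finset (ZMod p × ZMod p)),
      A.card = n ∧ B.card = n ∧ F ⊆ A ×ˢ B ∧ MaxDegLE A B F d ∧
        ∀ B' ⊆ B, (restrictedSum A B' F).card + t * m + 1 ≤ 2 * (n - d) + t * B'.card := by
  have hA : ∀ a ∈ setA n d (t * m), a < n + t * m := by
    intro a ha
    rw [mem_setA] at ha
    omega
  refine transfer p n d (t * m) t hp (setA n d (t * m)) (setC n d (t * m))
    (fun b => (extra n t m b).image (fun x => x + b)) (ok n d t (t * m)) hA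
    (card_setA (by omega)) (fun a ha => degA h0 h1 h2 ha) (fun b hb => degB h1 h2 hb)
    (card_setC h1 h2) (fun b => card_image_le.trans (card_extra _ _ _ _)) ?_
  intro a ha b hb h
  rcases ok_cases h3 (hA a ha) hb h with h | h
  · exact Or.inl h
  · exact Or.inr (mem_image.2 ⟨a, h, rfl⟩)

/-- The common sums of the second construction. -/
def setD (n d g z : ℕ) (S T : Finset ℕ) : Finset ℕ :=
  Ico (d - g) z \ S ∪ Ico (z + g) (z + n - 1) ∪ Ico (z + n - 1 + g) (2 * n + 2 * g - 1 - d) \ T

theorem mem_setD {n d g z s : ℕ} {S T : Finset ℕ} : s ∈ setD n d g z S T ↔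
    ((d - g ≤ s ∧ s < z) ∧ s ∉ S ∨ (z + g ≤ s ∧ s < z + n - 1)) ∨
      (z + n - 1 + g ≤ s ∧ s < 2 * n + 2 * g - 1 - d) ∧ s ∉ T := by
  simp only [setD, mem_union, mem_sdiff, mem_Ico]

/-- The allowed pairs of the second construction. -/
def ok2 (n d g z : ℕ) (S T : Finset ℕ) (a b : ℕ) : Prop :=
  a + b ∈ setD n d g z S T ∨ (a < g ∧ a + b ∈ S) ∨ (n ≤ a ∧ a + b ∈ T)

instance (n d g z : ℕ) (S T : Finset ℕ) (a b : ℕ) : Decidable (ok2 n d g z S T a b) := by
  unfold ok2; infer_instance

theorem cover {s S : Finset ℕ} {x l1 u1 l2 u2 : ℕ}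
    (h : ∀ y ∈ s, y + x ∈ S ∨ (l1 ≤ y ∧ y < u1) ∨ (l2 ≤ y ∧ y < u2)) :
    s.card ≤ S.card + (u1 - l1) + (u2 - l2) := by
  have hs : s ⊆ S.image (fun y => y - x) ∪ Ico l1 u1 ∪ Ico l2 u2 := by
    intro y hy
    rcases h y hy with h | h | h
    · exact mem_union_left _ (mem_union_left _ (mem_image.2 ⟨_, h, by omega⟩))
    · exact mem_union_left _ (mem_union_right _ (mem_Ico.2 h))
    · exact mem_union_right _ (mem_Ico.2 h)
  have h1 := card3 hs
  have h2 : (S.image (fun y => y - x)).card ≤ S.card := card_image_le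
  rw [Nat.card_Ico, Nat.card_Ico] at h1
  omega

section Second

variable {n d g z : ℕ} {S T : Finset ℕ}

theorem degA2 {a : ℕ} (h1 : 2 * g ≤ d) (hz : d + g ≤ z) (h2 : 2 * z < n + g)
    (cS : S.card = g) (cT : T.card = g) (bS : ∀ s ∈ S, d ≤ s ∧ s + 2 * g ≤ z)
    (bT : ∀ s ∈ T, 2 * n + 3 * g ≤ s + z + 2 ∧ s + d + 2 ≤ 2 * n + g)
    (ha : a ∈ setA n z g) :
    ((range n).filter (fun b => ¬ ok2 n d g z S T a b)).card ≤ d := by
  rw [mem_setA] at ha
  have key : ∀ b ∈ (range n).filter (fun b => ¬ ok2 n d g z S T a b), b < n ∧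
      (b + a ∈ S → (d ≤ b + a ∧ b + a + 2 * g ≤ z) ∧ g ≤ a) ∧
      (b + a ∈ T → (2 * n + 3 * g ≤ b + a + z + 2 ∧ b + a + d + 2 ≤ 2 * n + g) ∧ a < n) ∧
      (b + a < d - g ∨ b + a ∈ S ∨ (z ≤ b + a ∧ b + a < z + g) ∨
        (z + n - 1 ≤ b + a ∧ b + a < z + n - 1 + g) ∨ b + a ∈ T ∨
          2 * n + 2 * g - 1 - d ≤ b + a) := by
    intro b hb
    rw [mem_filter, mem_range, ok2, mem_setD, add_comm a b] at hb
    have k1 := bS (b + a)
    have k2 := bT (b + a)
    by_cases c1 : b + a ∈ S <;> by_cases c2 : b + a ∈ T <;>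
      simp only [c1, c2, not_true, not_false_iff, and_true, and_false, true_or, or_true,
        false_or, or_false, forall_true_left, IsEmpty.forall_iff, true_and] at hb k1 k2 ⊢ <;>
      omega
  by_cases c1 : a < g
  · have := cover (S := ∅) (x := a) (l1 := 0) (u1 := d - g - a) (l2 := z - a) (u2 := z + g - a)
      (s := (range n).filter (fun b => ¬ ok2 n d g z S T a b)) (by
        intro b hb
        obtain ⟨k0, k1, k2, k3⟩ := key b hb
        right
        rcases k3 with k | k | k | k | k | k
        · omega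
        · have := k1 k; omega
        · omega
        · omega
        · have := k2 k; omega
        · omega)
    rw [card_empty] at this
    omega
  by_cases c2 : a < z
  · have := cover (S := S) (x := a) (l1 := 0) (u1 := d - g - a) (l2 := z - a) (u2 := z + g - a)
      (s := (range n).filter (fun b => ¬ ok2 n d g z S T a b)) (by
        intro b hb
        obtain ⟨k0, k1, k2, k3⟩ := key b hb
        rcases k3 with k | k | k | k | k | k
        · right; omega
        · exact Or.inl k
        · right; omega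
        · right; omega
        · have := k2 k; right; omega
        · right; omega)
    omega
  by_cases c3 : a < n
  · have := cover (S := T) (x := a) (l1 := z + n - 1 - a) (u1 := z + n - 1 + g - a)
      (l2 := 2 * n + 2 * g - 1 - d - a) (u2 := n)
      (s := (range n).filter (fun b => ¬ ok2 n d g z S T a b)) (by
        intro b hb
        obtain ⟨k0, k1, k2, k3⟩ := key b hb
        rcases k3 with k | k | k | k | k | k
        · right; omega
        · have := k1 k
          have : 0 < g := cS ▸ card_pos.2 ⟨_, k⟩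
          right; omega
        · right; omega
        · right; omega
        · exact Or.inl k
        · right; omega)
    omega
  · have := cover (S := ∅) (x := a) (l1 := z + n - 1 - a) (u1 := z + n - 1 + g - a)
      (l2 := 2 * n + 2 * g - 1 - d - a) (u2 := n)
      (s := (range n).filter (fun b => ¬ ok2 n d g z S T a b)) (by
        intro b hb
        obtain ⟨k0, k1, k2, k3⟩ := key b hb
        right
        rcases k3 with k | k | k | k | k | k
        · omega
        · have := k1 k; omega
        · omega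
        · omega
        · have := k2 k; omega
        · omega)
    rw [card_empty] at this
    omega

theorem degB2 {b : ℕ} (h1 : 2 * g ≤ d) (hz : d + g ≤ z) (h2 : 2 * z < n + g)
    (cS : S.card = g) (cT : T.card = g) (bS : ∀ s ∈ S, d ≤ s ∧ s + 2 * g ≤ z)
    (bT : ∀ s ∈ T, 2 * n + 3 * g ≤ s + z + 2 ∧ s + d + 2 ≤ 2 * n + g) (hb : b < n) :
    ((setA n z g).filter (fun a => ¬ ok2 n d g z S T a b)).card ≤ d := by
  have key : ∀ a ∈ (setA n z g).filter (fun a => ¬ ok2 n d g z S T a b),
      (a < z ∨ (z + g ≤ a ∧ a < n + g)) ∧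
      (a + b ∈ S → d ≤ a + b ∧ a + b + 2 * g ≤ z) ∧
      (a + b ∈ T → 2 * n + 3 * g ≤ a + b + z + 2 ∧ a + b + d + 2 ≤ 2 * n + g) ∧
      (a + b < d - g ∨ a + b ∈ S ∨ (z ≤ a + b ∧ a + b < z + g) ∨
        (z + n - 1 ≤ a + b ∧ a + b < z + n - 1 + g) ∨ a + b ∈ T ∨
          2 * n + 2 * g - 1 - d ≤ a + b) := by
    intro a ha
    rw [mem_filter, mem_setA, ok2, mem_setD] at ha
    refine ⟨ha.1, bS _, bT _, ?_⟩
    have ha2 := ha.2
    by_cases c1 : a + b ∈ S <;> by_cases c2 : a + b ∈ T <;>
      simp only [c1, c2, not_true, not_false_iff, and_true, and_false, true_or, or_true,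
        false_or, or_false] at ha2 ⊢
    omega
  by_cases c1 : b + g < z
  · have := cover (S := S) (x := b) (l1 := 0) (u1 := d - g - b) (l2 := z - b)
      (u2 := min z (z + g - b))
      (s := (setA n z g).filter (fun a => ¬ ok2 n d g z S T a b)) (by
        intro a ha
        obtain ⟨k0, k1, k2, k3⟩ := key a ha
        rcases k3 with k | k | k | k | k | k
        · right; omega
        · exact Or.inl k
        · right; omega
        · right; omega
        · have := k2 k; right; omega
        · right; omega)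
    omega
  by_cases c2 : b < z + g
  · have := cover (S := ∅) (x := b) (l1 := z - b) (u1 := z + g - b) (l2 := z + n - 1 - b)
      (u2 := z + n - 1 + g - b)
      (s := (setA n z g).filter (fun a => ¬ ok2 n d g z S T a b)) (by
        intro a ha
        obtain ⟨k0, k1, k2, k3⟩ := key a ha
        right
        rcases k3 with k | k | k | k | k | k
        · omega
        · have := k1 k; omega
        · omega
        · omega
        · have := k2 k; omega
        · omega)
    rw [card_empty] at this
    omega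
  · have := cover (S := T) (x := b) (l1 := max (z + g) (z + n - 1 - b))
      (u1 := z + n - 1 + g - b) (l2 := 2 * n + 2 * g - 1 - d - b) (u2 := n + g)
      (s := (setA n z g).filter (fun a => ¬ ok2 n d g z S T a b)) (by
        intro a ha
        obtain ⟨k0, k1, k2, k3⟩ := key a ha
        rcases k3 with k | k | k | k | k | k
        · right; omega
        · have := k1 k
          have : 0 < g := cS ▸ card_pos.2 ⟨_, k⟩
          right; omega
        · right; omega
        · right; omega
        · exact Or.inl k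
        · right; omega)
    omega

theorem card_setD (h1 : 2 * g ≤ d) (hz : d + g ≤ z) (h2 : 2 * z < n + g)
    (cS : S.card = g) (cT : T.card = g) (bS : ∀ s ∈ S, d ≤ s ∧ s + 2 * g ≤ z)
    (bT : ∀ s ∈ T, 2 * n + 3 * g ≤ s + z + 2 ∧ s + d + 2 ≤ 2 * n + g) :
    (setD n d g z S T).card + g + 1 ≤ 2 * (n - d) := by
  have g0 : S.Nonempty → 0 < g := fun h => cS ▸ card_pos.2 h
  have g1 : T.Nonempty → 0 < g := fun h => cT ▸ card_pos.2 h
  have s1 : S ⊆ Ico (d - g) z := by
    intro s hs
    have := bS s hs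
    have := g0 ⟨s, hs⟩
    rw [mem_Ico]
    omega
  have s2 : T ⊆ Ico (z + n - 1 + g) (2 * n + 2 * g - 1 - d) := by
    intro s hs
    have := bT s hs
    have := g1 ⟨s, hs⟩
    rw [mem_Ico]
    omega
  have := card3 (Subset.refl (setD n d g z S T))
  rw [card_sdiff_of_subset s1, card_sdiff_of_subset s2, Nat.card_Ico, Nat.card_Ico,
    Nat.card_Ico] at this
  omega

end Second

theorem spaced {g i j : ℕ} (h1 : g * i < g * j + g) (h2 : g * j < g * i + g) : g * i = g * j := by
  rcases lt_trichotomy i j with h | h | h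
  · have := Nat.mul_le_mul_left g (Nat.succ_le_of_lt h)
    rw [Nat.mul_succ] at this
    omega
  · rw [h]
  · have := Nat.mul_le_mul_left g (Nat.succ_le_of_lt h)
    rw [Nat.mul_succ] at this
    omega

/-- Second construction: small `d`. -/
theorem main2 (p n d g : ℕ) (hp : p = 0 ∨ n + g ≤ p) (h1 : 2 * g ≤ d)
    (h2 : 2 * d + 2 * (g * g) + g < n) :
    ∃ (A B : Finset (ZMod p)) (F : Finset (ZMod p × ZMod p)),
      A.card = n ∧ B.card = n ∧ F ⊆ A ×ˢ B ∧ MaxDegLE A B F d ∧
        ∀ B' ⊆ B, (restrictedSum A B' F).card + g + 1 ≤ 2 * (n - d) + 1 * B'.card := by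
  have hm : ∀ i ∈ range g, g * i + g ≤ g * g := by
    intro i hi
    have := Nat.mul_le_mul_left g (Nat.succ_le_of_lt (mem_range.1 hi))
    rwa [Nat.mul_succ] at this
  obtain ⟨S, cS, eS⟩ : ∃ S : Finset ℕ, S.card = g ∧
      ∀ s ∈ S, ∃ i, g * i + g ≤ g * g ∧ s = d + g * i := by
    refine ⟨(range g).image (fun i => d + g * i), ?_, ?_⟩
    · rw [card_image_of_injOn, card_range]
      intro i hi j _ hij
      have hg : 0 < g := by have := mem_range.1 (mem_coe.1 hi); omega
      exact Nat.eq_of_mul_eq_mul_left hg (Nat.add_left_cancel hij)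
    · intro s hs
      obtain ⟨i, hi, rfl⟩ := mem_image.1 hs
      exact ⟨i, hm i hi, rfl⟩
  obtain ⟨T, cT, eT⟩ : ∃ T : Finset ℕ, T.card = g ∧
      ∀ s ∈ T, ∃ i, g * i + g ≤ g * g ∧ s + d + g * i + 2 = 2 * n + g := by
    refine ⟨(range g).image (fun i => 2 * n + g - 2 - d - g * i), ?_, ?_⟩
    · rw [card_image_of_injOn, card_range]
      intro i hi j hj hij
      have hg : 0 < g := by have := mem_range.1 (mem_coe.1 hi); omega
      have k1 := hm i (mem_coe.1 hi)
      have k2 := hm j (mem_coe.1 hj)
      have hij' : 2 * n + g - 2 - d - g * i = 2 * n + g - 2 - d - g * j := hij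
      exact Nat.eq_of_mul_eq_mul_left hg (by omega)
    · intro s hs
      obtain ⟨i, hi, rfl⟩ := mem_image.1 hs
      have k1 := hm i hi
      exact ⟨i, k1, by omega⟩
  have bS : ∀ s ∈ S, d ≤ s ∧ s + 2 * g ≤ d + g * g + g := by
    intro s hs
    obtain ⟨i, k1, k2⟩ := eS s hs
    omega
  have bT : ∀ s ∈ T, 2 * n + 3 * g ≤ s + (d + g * g + g) + 2 ∧ s + d + 2 ≤ 2 * n + g := by
    intro s hs
    obtain ⟨i, k1, k2⟩ := eT s hs
    omega
  have hz : d + g ≤ d + g * g + g := by omega
  have h2' : 2 * (d + g * g + g) < n + g := by omega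
  have hA : ∀ a ∈ setA n (d + g * g + g) g, a < n + g := by
    intro a ha
    rw [mem_setA] at ha
    omega
  refine transfer p n d g 1 hp (setA n (d + g * g + g) g) (setD n d g (d + g * g + g) S T)
    (fun b => if b < d + g * g + g then S.filter (fun s => b ≤ s ∧ s < b + g)
      else T.filter (fun s => b + n ≤ s ∧ s < b + n + g))
    (ok2 n d g (d + g * g + g) S T) hA (card_setA ?_)
    (fun a ha => degA2 h1 hz h2' cS cT bS bT ha) (fun b hb => degB2 h1 hz h2' cS cT bS bT hb)
    (card_setD h1 hz h2' cS cT bS bT) ?_ ?_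
  · omega
  · intro b
    split_ifs
    · refine card_le_one.2 ?_
      intro x hx y hy
      obtain ⟨x1, x2⟩ := mem_filter.1 hx
      obtain ⟨y1, y2⟩ := mem_filter.1 hy
      obtain ⟨i, _, ei⟩ := eS x x1
      obtain ⟨j, _, ej⟩ := eS y y1
      have := spaced (g := g) (i := i) (j := j) (by omega) (by omega)
      omega
    · refine card_le_one.2 ?_
      intro x hx y hy
      obtain ⟨x1, x2⟩ := mem_filter.1 hx
      obtain ⟨y1, y2⟩ := mem_filter.1 hy
      obtain ⟨i, _, ei⟩ := eT x x1
      obtain ⟨j, _, ej⟩ := eT y y1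
      have := spaced (g := g) (i := i) (j := j) (by omega) (by omega)
      omega
  · intro a ha b hb h
    have ha' := hA a ha
    rcases h with h | ⟨h, h'⟩ | ⟨h, h'⟩
    · exact Or.inl h
    · right
      have := bS _ h'
      rw [if_pos (by omega)]
      exact mem_filter.2 ⟨h', by omega⟩
    · right
      have := bT _ h'
      rw [if_neg (by omega)]
      exact mem_filter.2 ⟨h', by omega⟩

end Proof

theorem result (p n d g : ℕ) (hp : p = 0 ∨ n + g ≤ p) (hn : 4 * (g + 1) ^ 2 ≤ n)
    (hd : 2 * g ≤ d) (hd' : d + 2 * g < n) :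
    ∃ (A B : Finset (ZMod p)) (F : Finset (ZMod p × ZMod p)),
      A.card = n ∧ B.card = n ∧ F ⊆ A ×ˢ B ∧ MaxDegLE A B F d ∧
        ∀ B' ⊆ B, ((restrictedSum A B' F).card : ℤ) ≤ 2 * n - 2 * d - 1 - g + B'.card := by
  have hn' : 4 * (g * g) + 8 * g + 4 ≤ n := by
    calc 4 * (g * g) + 8 * g + 4 = 4 * (g + 1) ^ 2 := by ring
      _ ≤ n := hn
  have key : ∃ (A B : Finset (ZMod p)) (F : Finset (ZMod p × ZMod p)),
      A.card = n ∧ B.card = n ∧ F ⊆ A ×ˢ B ∧ MaxDegLE A B F d ∧
        ∀ B' ⊆ B, (restrictedSum A B' F).card + g + 1 ≤ 2 * (n - d) + 1 * B'.card := by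
    by_cases h : 2 * d + 2 * (g * g) + g < n
    · exact main2 p n d g hp hd h
    · have := main p n d 1 g (by rwa [one_mul]) (by rw [one_mul]; omega) (by omega) (by omega)
        (by rw [one_mul]; omega)
      rwa [one_mul g] at this
  obtain ⟨A, B, F, hA, hB, hF, hdeg, hall⟩ := key
  refine ⟨A, B, F, hA, hB, hF, hdeg, fun B' hB' => ?_⟩
  have := hall B' hB'
  omega

end Pool.Agent.Results.MP_0e87b2_co.SmallDegree
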